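import Pool.Agent.R903.SmashGap

/-!
# Smash-nilpotence for cycles of a given dimension: definitions
-/

open CategoryTheory AlgebraicGeometry
open Pool.Agent.H914 Pool.Agent.H914.VarClass Pool.Agent.H914.VarClass.Obj

universe u v w

namespace Pool.Agent.R910.Nil

open Pool.Agent.R903

variable {k : Type u} [Field k] {𝒱 : VarClass k}

/-- The class `a` on `X` is a class of cycles of codimension `p`. -/
def IsCodim (C : ChowTheory.{u, v} 𝒱) {X : 𝒱.Obj} (p : ℕ) (a : C.CH X) : Prop :=
  a ∈ C.gr X p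

/-- The pull-back `f^* y`. -/
noncomputable def pullOf (C : ChowTheory.{u, v} 𝒱) {X Y : 𝒱.Obj} (f : X ⟶ Y) (y : C.CH Y) : C.CH X :=
  C.pull f y

/-- The push-forward `f_* x`. -/
noncomputable def pushOf (C : ChowTheory.{u, v} 𝒱) {X Y : 𝒱.Obj} (f : X ⟶ Y) (x : C.CH X) : C.CH Y :=
  C.push f x

/-- The classes `a` and `b` are numerically equivalent. -/
def NumEquiv (C : ChowTheory.{u, v} 𝒱) {X : 𝒱.Obj} (a b : C.CH X) : Prop :=
  C.NumTriv (a - b)

/-- The numerically trivial classes of cycles of dimension `j` on `X` are smash-nilpotent. -/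
def NilpotentIn (C : ChowTheory.{u, v} 𝒱) (X : 𝒱.Obj) (j : ℕ) : Prop :=
  j ≤ X.dim → ∀ a : C.CH X, IsCodim C (X.dim - j) a → C.NumTriv a → C.SmashNilpotent a

/-- The set `𝒮` of varieties satisfies Voevodsky's conjecture: for all `X` in `𝒮` and all `r` the
numerically trivial classes in `CH ^ r (X)` are smash-nilpotent. -/
def VoevodskyFor (C : ChowTheory.{u, v} 𝒱) (𝒮 : Set 𝒱.Obj) : Prop :=
  ∀ X ∈ 𝒮, ∀ (r : ℕ) (a : C.CH X), IsCodim C r a → C.NumTriv a → C.SmashNilpotent a

/-- The class `w` of dimension `j` on `X` is the push-forward of a class on a hyperplane section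
`f : Z ⟶ X`, with `Z` in `𝒮`, which is general in the sense that every class of codimension `j` on `Z`
is numerically equivalent to the pull-back of a class on `X`. -/
def FromGeneralSection (C : ChowTheory.{u, v} 𝒱) (𝒮 : Set 𝒱.Obj) (X : 𝒱.Obj) (j : ℕ)
    (w : C.CH X) : Prop :=
  ∃ Z ∈ 𝒮, ∃ f : Z ⟶ X, X.dim = Z.dim + 1 ∧
    (∃ w' : C.CH Z, IsCodim C (Z.dim - j) w' ∧ pushOf C f w' = w) ∧
    ∀ b : C.CH Z, IsCodim C j b → ∃ u : C.CH X, IsCodim C j u ∧ NumEquiv C b (pullOf C f u)

/-- The curve `P` has a zero-cycle of degree different from `0`, and `𝒮` is closed under products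
with `P`. For example `P` is the projective line. -/
structure IsLineFor (C : ChowTheory.{u, v} 𝒱) (𝒮 : Set 𝒱.Obj) (P : 𝒱.Obj) : Prop where
  dim_eq : P.dim = 1
  point : ∃ o : C.CH P, IsCodim C 1 o ∧ C.deg P o ≠ 0
  prod_mem : ∀ X ∈ 𝒮, X.prod P ∈ 𝒮

/-- The set `𝒮` of varieties is closed under general hyperplane sections and under products with a
projective line: if `dim X > 2 j + 1`, every class of dimension `j` on `X` in `𝒮` comes from a general
section. -/
structure HasSections (C : ChowTheory.{u, v} 𝒱) (𝒮 : Set 𝒱.Obj) : Prop where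
  general : ∀ X ∈ 𝒮, ∀ j, 2 * j + 1 < X.dim → ∀ w : C.CH X, IsCodim C (X.dim - j) w →
    FromGeneralSection C 𝒮 X j w
  line : ∃ P, IsLineFor C 𝒮 P

/-- The morphisms `p : E ⟶ X` and `i : E ⟶ B` satisfy `p_* i^* i_* p^* w = c w` for some number
`c ≠ 0`. For example `B` is a blow-up, `X` is a smooth centre of codimension two and `E` is the
exceptional divisor, and then `c = -1`. -/
def IsCentreOf (C : ChowTheory.{u, v} 𝒱) {X E B : 𝒱.Obj} (p : E ⟶ X) (i : E ⟶ B) : Prop :=
  ∃ c : ℚ, c ≠ 0 ∧ ∀ w : C.CH X, pushOf C p (pullOf C i (pushOf C i (pullOf C p w))) = c • w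

/-- The class `β_* α_* a` given by the correspondences `α` and `β`. -/
noncomputable def through (C : ChowTheory.{u, v} 𝒱) {B Z : 𝒱.Obj} (α : C.CH (B.prod Z))
    (β : C.CH (Z.prod B)) (a : C.CH B) : C.CH B :=
  C.act β (C.act α a)

/-- The class `a` of codimension less than `dim B` satisfies `a = ∑ (β s)_* (α s)_* a`. -/
def Splits (C : ChowTheory.{u, v} 𝒱) (B : 𝒱.Obj) {m : ℕ} (Z : Fin m → 𝒱.Obj)
    (α : ∀ s, C.CH (B.prod (Z s))) (β : ∀ s, C.CH ((Z s).prod B)) : Prop :=
  ∀ r < B.dim, ∀ a : C.CH B, IsCodim C r a → ∑ s, through C (α s) (β s) a = a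

/-- The classes of positive dimension on `B` come from the varieties `Z s`: the correspondences
`α s` from `B` to `Z s` lower the dimension of cycles by `e s + 1`, and `a = ∑ (β s)_* (α s)_* a` for
all classes `a` of positive dimension. For example `B` is obtained from a projective space by blowing
up smooth centres, and the `Z s` are the centres and the point. -/
def IsDecomposition (C : ChowTheory.{u, v} 𝒱) (B : 𝒱.Obj) {m : ℕ} (Z : Fin m → 𝒱.Obj)
    (e : Fin m → ℕ) (α : ∀ s, C.CH (B.prod (Z s))) (β : ∀ s, C.CH ((Z s).prod B)) : Prop :=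
  (∀ s, IsCodim C ((Z s).dim + (e s + 1)) (α s)) ∧ Splits C B Z α β

/-- The subset `ℛ` of `𝒮` behaves like the set of the varieties obtained from projective spaces by
blowing up smooth centres: the classes of positive dimension on every `B` in `ℛ` come from varieties
in `𝒮` by correspondences which raise the dimension of cycles, and every `X` in `𝒮` is related to a
variety `B` in `ℛ` of dimension `dim X + 2` like a centre of a blow-up, up to a birational
morphism. -/
structure IsBlowUpFamily (C : ChowTheory.{u, v} 𝒱) (𝒮 ℛ : Set 𝒱.Obj) : Prop where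
  subset : ℛ ⊆ 𝒮
  hull : ∀ X ∈ 𝒮, ∃ B ∈ ℛ, B.dim = X.dim + 2 ∧ ∃ (E : 𝒱.Obj) (p : E ⟶ X) (i : E ⟶ B),
    E.dim = X.dim + 1 ∧ IsCentreOf C p i
  decomposition : ∀ B ∈ ℛ, ∃ (m : ℕ) (Z : Fin m → 𝒱.Obj) (e : Fin m → ℕ)
    (α : ∀ s, C.CH (B.prod (Z s))) (β : ∀ s, C.CH ((Z s).prod B)),
    (∀ s, Z s ∈ 𝒮) ∧ IsDecomposition C B Z e α β

end Pool.Agent.R910.Nil
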