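import Pool.Agent.R910.Nil.Defs

/-!
# Smash-nilpotence and numerical triviality under pull-back, push-forward and products
-/

open CategoryTheory AlgebraicGeometry
open Pool.Agent.H914 Pool.Agent.H914.VarClass Pool.Agent.H914.VarClass.Obj

universe u v w

namespace Pool.Agent.R910.Nil

open Pool.Agent.R903 ChowTheory

variable {k : Type u} [Field k] {𝒱 : VarClass k} {C : ChowTheory.{u, v} 𝒱} {X Y Z : 𝒱.Obj}

/-- the power of a morphism -/
noncomputable def pwMap (f : X ⟶ Y) : ∀ n : ℕ, pw X n ⟶ pw Y n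
  | 0 => f
  | n + 1 => prodMap f (pwMap f n)

lemma extProd_zero (v : Fin 1 → C.CH X) : C.extProd 0 v = v 0 := by
  rw [ChowTheory.extProd, Fin.prod_univ_one]
  exact C.pull_id X (v 0)

lemma extProd_succ (n : ℕ) (v : Fin (n + 2) → C.CH X) :
    C.extProd (n + 1) v = C.ext (v 0) (C.extProd n fun i => v i.succ) := by
  rw [ChowTheory.extProd, Fin.prod_univ_succ, ChowTheory.ext, ChowTheory.extProd, map_prod]
  congr 1
  refine Finset.prod_congr rfl fun i _ => ?_
  rw [← C.pull_comp]
  rfl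

lemma push_extProd (f : X ⟶ Y) (n : ℕ) (v : Fin (n + 1) → C.CH X) :
    C.push (pwMap f n) (C.extProd n v) = C.extProd n fun i => C.push f (v i) := by
  induction n with
  | zero =>
    rw [extProd_zero, extProd_zero]
    rfl
  | succ n ih =>
    rw [extProd_succ, extProd_succ, ← ih]
    exact C.push_prodMap_ext f (pwMap f n) _ _

lemma sn_push {a : C.CH X} (h : C.SmashNilpotent a) (f : X ⟶ Y) :
    C.SmashNilpotent (C.push f a) := by
  obtain ⟨n, hn⟩ := h
  refine ⟨n, ?_⟩
  rw [← push_extProd f n fun _ => a, hn, map_zero]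

lemma sn_pull {a : C.CH Y} (h : C.SmashNilpotent a) (f : X ⟶ Y) :
    C.SmashNilpotent (C.pull f a) := by
  obtain ⟨n, hn⟩ := h
  refine ⟨n, ?_⟩
  have h1 := prod_eq_zero_of_card hn (Finset.univ : Finset (Fin (n + 1)))
    (by rw [Finset.card_univ, Fintype.card_fin]) fun i => pr X n i ≫ f
  rw [ChowTheory.extProd, ← h1]
  refine Finset.prod_congr rfl fun i _ => ?_
  rw [C.pull_comp]

lemma sn_mul {a : C.CH X} (h : C.SmashNilpotent a) (b : C.CH X) :
    C.SmashNilpotent (a * b) := by
  obtain ⟨n, hn⟩ := h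
  refine ⟨n, ?_⟩
  have h1 : C.extProd n (fun _ => a * b) = C.extProd n (fun _ => a) * C.extProd n fun _ => b := by
    rw [ChowTheory.extProd, ChowTheory.extProd, ChowTheory.extProd, ← Finset.prod_mul_distrib]
    exact Finset.prod_congr rfl fun i _ => C.pull_mul _ _ _
  rw [h1, hn, zero_mul]

lemma sn_smul {a : C.CH X} (h : C.SmashNilpotent a) (c : ℚ) :
    C.SmashNilpotent (c • a) := by
  have := sn_mul h (algebraMap ℚ (C.CH X) c)
  rwa [mul_comm, ← Algebra.smul_def] at this

lemma sn_of_smul {a : C.CH X} {c : ℚ} (hc : c ≠ 0) (h : C.SmashNilpotent (c • a)) :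
    C.SmashNilpotent a := by
  have := sn_smul h c⁻¹
  rwa [smul_smul, inv_mul_cancel₀ hc, one_smul] at this

lemma smashNilpotent_zero : C.SmashNilpotent (0 : C.CH X) :=
  ⟨0, extProd_zero _⟩

lemma sn_add {a b : C.CH X} (ha : C.SmashNilpotent a) (hb : C.SmashNilpotent b) :
    C.SmashNilpotent (a + b) := by
  classical
  obtain ⟨m, hm⟩ := ha
  obtain ⟨n, hn⟩ := hb
  refine ⟨m + n + 1, ?_⟩
  rw [ChowTheory.extProd]
  simp only [map_add]
  rw [Finset.prod_add]
  refine Finset.sum_eq_zero fun S hS => ?_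
  rcases Nat.lt_or_ge S.card (m + 1) with h1 | h1
  · have h2 : n + 1 ≤ (Finset.univ \ S).card := by
      have := Finset.card_sdiff_add_card_eq_card (Finset.mem_powerset.1 hS)
      rw [Finset.card_univ, Fintype.card_fin] at this
      omega
    rw [prod_eq_zero_of_card hn _ h2, mul_zero]
  · rw [prod_eq_zero_of_card hm _ h1, zero_mul]

lemma sn_sum {ι : Type*} (s : Finset ι) {a : ι → C.CH X}
    (h : ∀ i ∈ s, C.SmashNilpotent (a i)) : C.SmashNilpotent (∑ i ∈ s, a i) := by
  classical
  induction s using Finset.induction_on with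
  | empty => rw [Finset.sum_empty]; exact smashNilpotent_zero
  | insert i s hi ih =>
    rw [Finset.sum_insert hi]
    exact sn_add (h i (Finset.mem_insert_self i s))
      (ih fun j hj => h j (Finset.mem_insert_of_mem hj))

lemma sn_act {a : C.CH X} (h : C.SmashNilpotent a) (γ : C.CH (X.prod Y)) :
    C.SmashNilpotent (C.act γ a) := by
  rw [C.act_apply, mul_comm]
  exact sn_push (sn_mul (sn_pull h (fst X Y)) γ) (snd X Y)

lemma deg_push (f : X ⟶ Y) (x : C.CH X) : C.deg Y (C.push f x) = C.deg X x := by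
  by_cases h0 : (1 : C.CH X) = 0
  · have h2 : x = 0 := by rw [← mul_one x, h0, mul_zero]
    rw [h2, map_zero, map_zero, map_zero]
  · have : Nontrivial (C.CH X) := ⟨⟨1, 0, h0⟩⟩
    apply FaithfulSMul.algebraMap_injective ℚ (C.CH X)
    rw [← C.push_snd_pull_fst, ← C.push_snd_pull_fst, C.pull_fst_push, ← C.push_comp]
    congr 2
    simp

lemma nt_mul {a : C.CH X} (h : C.NumTriv a) (b : C.CH X) : C.NumTriv (a * b) := fun c => by
  rw [mul_assoc]; exact h _

lemma nt_push {a : C.CH X} (h : C.NumTriv a) (f : X ⟶ Y) : C.NumTriv (C.push f a) := by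
  intro b
  rw [← C.push_mul, deg_push]
  exact h _

lemma nt_pull {a : C.CH Y} (h : C.NumTriv a) (f : X ⟶ Y) : C.NumTriv (C.pull f a) := by
  intro b
  rw [← deg_push f, C.mul_push]
  exact h _

lemma nt_act {a : C.CH X} (h : C.NumTriv a) (γ : C.CH (X.prod Y)) :
    C.NumTriv (C.act γ a) := by
  rw [C.act_apply, mul_comm]
  exact nt_push (nt_mul (nt_pull h (fst X Y)) γ) (snd X Y)

end Pool.Agent.R910.Nil
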