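import Pool.Agent.R910.Nil.HomDefs
import Pool.Agent.R910.Nil.Push

/-!
# Smash-nilpotence of homologically trivial cycles: reduction to powers of divisors
-/

open CategoryTheory AlgebraicGeometry
open Pool.Agent.H914 Pool.Agent.H914.VarClass Pool.Agent.H914.VarClass.Obj

universe u v w

namespace Pool.Agent.R910.Nil

open Pool.Agent.R903 ChowTheory

variable {k : Type u} [Field k] {𝒱 : VarClass k} {C : ChowTheory.{u, v} 𝒱} {X Y Z : 𝒱.Obj}
  {W : WeilTheory.{u, v, w} C} {𝒮 ℛ : Set 𝒱.Obj} {P : 𝒱.Obj}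

lemma ht_mul {a : C.CH X} (h : HomTriv W a) (b : C.CH X) : HomTriv W (a * b) := by
  rw [HomTriv, map_mul, show W.cl X a = 0 from h, zero_mul]

lemma ht_push {a : C.CH X} (h : HomTriv W a) (f : X ⟶ Y) : HomTriv W (C.push f a) := by
  rw [HomTriv, (W.isClassFunctorial f).cl_push, show W.cl X a = 0 from h, map_zero]

lemma ht_pull {a : C.CH Y} (h : HomTriv W a) (f : X ⟶ Y) : HomTriv W (C.pull f a) := by
  rw [HomTriv, (W.isClassFunctorial f).cl_pull, show W.cl Y a = 0 from h, map_zero]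

lemma ht_act {a : C.CH X} (h : HomTriv W a) (γ : C.CH (X.prod Y)) :
    HomTriv W (C.act γ a) := by
  rw [C.act_apply, mul_comm]
  exact ht_push (ht_mul (ht_pull h (fst X Y)) γ) (snd X Y)

/-- The product with the line, and pull-back. -/
lemma homNilpotentIn_of_pull (hP : IsLineFor C 𝒮 P) {j : ℕ}
    (h : HomNilpotentIn W (X.prod P) (j + 1)) : HomNilpotentIn W X j := by
  obtain ⟨o, ho, hdeg⟩ := hP.point
  intro hj a ha hn
  have hd : (X.prod P).dim = X.dim + 1 := by rw [dim_prod, hP.dim_eq]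
  have h1 : C.SmashNilpotent (C.pull (fst X P) a) := by
    refine h (by omega) _ ?_ (ht_pull hn _)
    rw [hd, show X.dim + 1 - (j + 1) = X.dim - j by omega]
    exact C.pull_mem _ ha
  have h2 := sn_push (sn_mul h1 (C.pull (snd X P) o)) (fst X P)
  rw [C.mul_push, push_fst_pull_snd, mul_comm, ← Algebra.smul_def] at h2
  exact sn_of_smul hdeg h2

/-- The product with the line, and with a point of the line. -/
lemma homNilpotentIn_of_mul (hP : IsLineFor C 𝒮 P) {j : ℕ}
    (h : HomNilpotentIn W (X.prod P) j) : HomNilpotentIn W X j := by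
  obtain ⟨o, ho, hdeg⟩ := hP.point
  intro hj a ha hn
  have hd : (X.prod P).dim = X.dim + 1 := by rw [dim_prod, hP.dim_eq]
  have h1 : C.SmashNilpotent (C.pull (fst X P) a * C.pull (snd X P) o) := by
    refine h (by omega) _ ?_ (ht_mul (ht_pull hn _) _)
    rw [hd, show X.dim + 1 - j = X.dim - j + 1 by omega]
    exact C.mul_mem (C.pull_mem _ ha) (C.pull_mem _ ho)
  have h2 := sn_push h1 (fst X P)
  rw [C.mul_push, push_fst_pull_snd, mul_comm, ← Algebra.smul_def] at h2
  exact sn_of_smul hdeg h2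

/-- Cycles of dimension `j` in dimension `n` and cycles of dimension `i ≤ j` in dimension
`m ≤ n`, if the codimension does not increase by more than the difference. -/
lemma homNilpotentIn_of_le (hP : IsLineFor C 𝒮 P) {j n : ℕ}
    (h : ∀ X ∈ 𝒮, X.dim = n → HomNilpotentIn W X j) :
    ∀ r s, s ≤ j → ∀ X ∈ 𝒮, X.dim + r + s = n → HomNilpotentIn W X (j - s) := by
  have h1 : ∀ s, s ≤ j → ∀ X ∈ 𝒮, X.dim + s = n → HomNilpotentIn W X (j - s) := by
    intro s
    induction s with
    | zero => exact fun _ X hX hn => h X hX hn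
    | succ s ih =>
      intro hs X hX hn
      refine homNilpotentIn_of_pull hP ?_
      have := ih (by omega) (X.prod P) (hP.prod_mem X hX) (by rw [dim_prod, hP.dim_eq]; omega)
      rwa [show j - s = j - (s + 1) + 1 by omega] at this
  intro r
  induction r with
  | zero => exact fun s hs X hX hn => h1 s hs X hX (by omega)
  | succ r ih =>
    intro s hs X hX hn
    exact homNilpotentIn_of_mul hP (ih s hs (X.prod P) (hP.prod_mem X hX)
      (by rw [dim_prod, hP.dim_eq]; omega))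

/-- The reduction to a hyperplane section. -/
lemma smashNilpotent_of_section {j : ℕ} {w : C.CH X} (hw : FromSection W 𝒮 X j w)
    (hn : HomTriv W w) (hj : j < X.dim)
    (h : ∀ Z ∈ 𝒮, X.dim = Z.dim + 1 → HomNilpotentIn W Z j) : C.SmashNilpotent w := by
  obtain ⟨Z, hZ, f, hd, ⟨w', hw', rfl⟩, hinj⟩ := hw
  refine sn_push (h Z hZ hd (by omega) w' hw' ?_) f
  refine hinj _ ((W.isClassMap Z).cl_mem hw') ?_
  rw [← (W.isClassFunctorial f).cl_push]
  exact hn

/-- Cycles of dimension `j` on varieties of dimension at least `2 j + 1`. -/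
lemma homNilpotentIn_of_sections (hS : HasHomSections W 𝒮) {j : ℕ}
    (h : ∀ X ∈ 𝒮, X.dim = 2 * j + 1 → HomNilpotentIn W X j) :
    ∀ r, ∀ X ∈ 𝒮, X.dim = 2 * j + 1 + r → HomNilpotentIn W X j := by
  intro r
  induction r with
  | zero => exact h
  | succ r ih =>
    intro X hX hd hj a ha hn
    exact smashNilpotent_of_section (hS.sections X hX j (by omega) a ha) hn (by omega)
      fun Z hZ hZd => ih Z hZ (by omega)

/-- **The theorem of the middle dimension**, for cycles of dimension `j`. -/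
theorem homNilpotentIn_all (hS : HasHomSections W 𝒮) {j n : ℕ} (hn : 2 * j + 1 ≤ n)
    (h : ∀ X ∈ 𝒮, X.dim = n → HomNilpotentIn W X j) (X : 𝒱.Obj) (hX : X ∈ 𝒮) (i : ℕ)
    (hi : i ≤ j) : HomNilpotentIn W X i := by
  obtain ⟨P, hP⟩ := hS.line
  have h1 : ∀ X ∈ 𝒮, X.dim = 2 * i + 1 → HomNilpotentIn W X i := by
    intro X hX hd
    have := homNilpotentIn_of_le hP h (n - (2 * i + 1) - (j - i)) (j - i) (by omega) X hX
      (by omega)
    rwa [show j - (j - i) = i by omega] at this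
  rcases Nat.lt_or_ge X.dim (2 * i + 1) with h2 | h2
  · exact homNilpotentIn_of_le hP h1 (2 * i + 1 - X.dim) 0 (by omega) X hX (by omega)
  · exact homNilpotentIn_of_sections hS h1 (X.dim - (2 * i + 1)) X hX (by omega)

/-- From the blow-up to the centre. -/
lemma homNilpotentIn_of_centre {E B : 𝒱.Obj} {p : E ⟶ X} {i : E ⟶ B} (h : IsCentreOf C p i)
    (hE : E.dim = X.dim + 1) (hB : B.dim = X.dim + 2) {j : ℕ}
    (hN : HomNilpotentIn W B (j + 1)) : HomNilpotentIn W X j := by
  obtain ⟨c, hc, h⟩ := h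
  change ∀ w : C.CH X, C.push p (C.pull i (C.push i (C.pull p w))) = c • w at h
  intro hj a ha hn
  have h1 := sn_push (sn_pull (hN (by omega) (C.push i (C.pull p a))
    (C.push_mem i (C.pull_mem p ha) (by omega)) (ht_push (ht_pull hn p) i)) i) p
  rw [h] at h1
  exact sn_of_smul hc h1

/-- From the centres to the blow-up. -/
lemma homNilpotentIn_of_decomposition {B : 𝒱.Obj} {m : ℕ} {Z : Fin m → 𝒱.Obj} {e : Fin m → ℕ}
    {α : ∀ s, C.CH (B.prod (Z s))} {β : ∀ s, C.CH ((Z s).prod B)}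
    (h : IsDecomposition C B Z e α β) {j : ℕ} (hN : ∀ s, ∀ i ≤ j, HomNilpotentIn W (Z s) i) :
    HomNilpotentIn W B (j + 1) := by
  intro hj a ha hn
  rw [← h.2 (B.dim - (j + 1)) (by omega) a ha]
  refine sn_sum _ fun s _ => sn_act ?_ (β s)
  rcases Nat.lt_or_ge (B.dim - (j + 1) + ((Z s).dim + (e s + 1))) B.dim with h2 | h2
  · rw [C.act_eq_zero (h.1 s) ha h2]
    exact smashNilpotent_zero
  have h1 : C.act (α s) a ∈ C.gr (Z s) ((Z s).dim + e s - j) :=
    C.act_mem (h.1 s) ha (by omega)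
  rcases Nat.lt_or_ge j (e s) with h3 | h3
  · rw [C.gr_eq_bot (Z s) _ (by omega), Submodule.mem_bot] at h1
    rw [h1]
    exact smashNilpotent_zero
  · refine hN s (j - e s) (by omega) (by omega) _ ?_ (ht_act hn _)
    rwa [show (Z s).dim - (j - e s) = (Z s).dim + e s - j by omega]

/-- It suffices to consider linear combinations of powers of divisor classes. -/
lemma homNilpotentIn_of_powers (hR : SplitsByBlowUps C ℛ) {j n : ℕ} (hj : j ≤ n)
    (h : ∀ X ∈ ℛ, X.dim = n → HomNilpotentPowers W X (n - j)) (X : 𝒱.Obj) (hX : X ∈ ℛ)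
    (hd : X.dim = n) : HomNilpotentIn W X j := by
  intro _ a ha hn
  obtain ⟨X', hX', π, hd', h1, h2⟩ := hR X hX _ a ha
  rw [hd] at h2
  have h3 : C.SmashNilpotent (C.pull π a) :=
    h X' hX' (hd'.trans hd) _ h2 (ht_pull hn π)
  have h4 := sn_push h3 π
  have h5 : C.push π (C.pull π a) = a := by
    have h6 := C.push_mul π 1 a
    rw [one_mul] at h6
    rw [h6, show C.push π 1 = 1 from h1, one_mul]
  rwa [h5] at h4

lemma homNilpotentPowers_of {p j : ℕ} (hd : X.dim = p + j) (h : HomNilpotentIn W X j) :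
    HomNilpotentPowers W X p := by
  intro a ha hn
  refine h (by omega) a ?_ hn
  rw [hd, show p + j - j = p by omega]
  have h1 : powerSpan C X p ≤ C.gr X p := by
    refine Submodule.span_le.2 ?_
    rintro _ ⟨D, hD, rfl⟩
    have h2 : ∀ q : ℕ, D ^ q ∈ C.gr X q := by
      intro q
      induction q with
      | zero => rw [pow_zero]; exact C.one_mem X
      | succ q ih => rw [pow_succ]; exact C.mul_mem ih hD
    exact h2 p
  exact h1 ha

/-- **The theorem of the middle dimension** for cycles of dimension `j`. -/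
theorem homNilpotentIn_tfae (hS : HasHomSections W 𝒮) (hR : IsBlowUpFamily C 𝒮 ℛ)
    (hs : SplitsByBlowUps C ℛ) (j : ℕ) :
    List.TFAE [
      ∀ X ∈ 𝒮, X.dim = 2 * j + 1 → HomNilpotentIn W X j,
      ∀ X ∈ 𝒮, ∀ i ≤ j, HomNilpotentIn W X i,
      ∃ n, 2 * j + 1 ≤ n ∧ ∀ X ∈ 𝒮, X.dim = n → HomNilpotentIn W X j,
      ∀ B ∈ ℛ, B.dim = 2 * j + 3 → HomNilpotentPowers W B (j + 2),
      ∀ B ∈ ℛ, ∀ i ≤ j + 1, HomNilpotentIn W B i] := by
  tfae_have 1 → 3 := fun h => ⟨2 * j + 1, le_rfl, h⟩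
  tfae_have 3 → 2 := fun ⟨n, hn, h⟩ X hX i hi => homNilpotentIn_all hS hn h X hX i hi
  tfae_have 2 → 5 := by
    intro h B hB i hi
    rcases Nat.lt_or_ge j i with h1 | h1
    · obtain ⟨m, Z, e, α, β, hZ, hd⟩ := hR.decomposition B hB
      rw [show i = j + 1 by omega]
      exact homNilpotentIn_of_decomposition hd fun s i hi => h (Z s) (hZ s) i hi
    · exact h B (hR.subset hB) i h1
  tfae_have 5 → 4 := fun h B hB hd => homNilpotentPowers_of (j := j + 1) (by omega)
    (h B hB (j + 1) le_rfl)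
  tfae_have 4 → 1 := by
    intro h X hX hd
    obtain ⟨B, hB, hBd, E, p, i, hE, hc⟩ := hR.hull X hX
    refine homNilpotentIn_of_centre hc hE hBd ?_
    refine homNilpotentIn_of_powers hs (n := 2 * j + 3) (by omega) (fun X hX hd => ?_) B hB
      (by omega)
    rw [show 2 * j + 3 - (j + 1) = j + 2 by omega]
    exact h X hX hd
  tfae_finish

lemma homVoevodskyFor_iff : HomVoevodskyFor W 𝒮 ↔ ∀ X ∈ 𝒮, ∀ j, HomNilpotentIn W X j := by
  constructor
  · intro h X hX j _ a ha hn
    exact h X hX _ a ha hn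
  · intro h X hX r a ha hn
    change a ∈ C.gr X r at ha
    rcases Nat.lt_or_ge X.dim r with h1 | h1
    · rw [C.gr_eq_bot X r h1, Submodule.mem_bot] at ha
      rw [ha]
      exact smashNilpotent_zero
    · refine h X hX (X.dim - r) (by omega) a ?_ hn
      rwa [show X.dim - (X.dim - r) = r by omega]

/-- **Powers of divisors in the middle dimension.** -/
theorem homVoevodskyFor_tfae (hS : HasHomSections W 𝒮) (hR : IsBlowUpFamily C 𝒮 ℛ)
    (hs : SplitsByBlowUps C ℛ) :
    List.TFAE [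
      HomVoevodskyFor W 𝒮,
      HomVoevodskyFor W ℛ,
      ∀ m, ∃ j, m ≤ j ∧ ∀ X ∈ 𝒮, X.dim = 2 * j + 1 → HomNilpotentIn W X j,
      ∀ m, ∃ j, m ≤ j ∧ ∀ B ∈ ℛ, B.dim = 2 * j + 1 → HomNilpotentPowers W B (j + 1)] := by
  rw [homVoevodskyFor_iff, homVoevodskyFor_iff]
  tfae_have 1 → 2 := fun h B hB j => h B (hR.subset hB) j
  tfae_have 2 → 4 := fun h m => ⟨m, le_rfl, fun B hB hd =>
    homNilpotentPowers_of (j := m) (by omega) (h B hB m)⟩
  tfae_have 4 → 3 := by
    intro h m
    obtain ⟨j, hj, hB⟩ := h (m + 1)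
    refine ⟨j - 1, by omega, ((homNilpotentIn_tfae hS hR hs (j - 1)).out 3 0).1
      fun B hB1 hB2 => ?_⟩
    rw [show j - 1 + 2 = j + 1 by omega]
    exact hB B hB1 (by omega)
  tfae_have 3 → 1 := by
    intro h X hX i
    obtain ⟨j, hj, hX2⟩ := h i
    have h1 := ((homNilpotentIn_tfae hS hR hs j).out 0 1).1 hX2
    exact h1 X hX i hj
  tfae_finish

end Pool.Agent.R910.Nil
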