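import Pool.Agent.R910.Nil.Defs

/-!
# Smash-nilpotence of homologically trivial cycles: definitions
-/

open CategoryTheory AlgebraicGeometry
open Pool.Agent.H914 Pool.Agent.H914.VarClass Pool.Agent.H914.VarClass.Obj

universe u v w

namespace Pool.Agent.R910.Nil

open Pool.Agent.R903

variable {k : Type u} [Field k] {𝒱 : VarClass k} {C : ChowTheory.{u, v} 𝒱}

/-- The class `a` is homologically trivial. -/
def HomTriv (W : WeilTheory.{u, v, w} C) {X : 𝒱.Obj} (a : C.CH X) : Prop :=
  W.cl X a = 0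

/-- The homologically trivial classes of cycles of dimension `j` on `X` are smash-nilpotent. -/
def HomNilpotentIn (W : WeilTheory.{u, v, w} C) (X : 𝒱.Obj) (j : ℕ) : Prop :=
  j ≤ X.dim → ∀ a : C.CH X, IsCodim C (X.dim - j) a → HomTriv W a → C.SmashNilpotent a

/-- The set `𝒮` of varieties satisfies Voevodsky's conjecture: for all `X` in `𝒮` and all `r` the
homologically trivial classes in `CH ^ r (X)` are smash-nilpotent. -/
def HomVoevodskyFor (W : WeilTheory.{u, v, w} C) (𝒮 : Set 𝒱.Obj) : Prop :=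
  ∀ X ∈ 𝒮, ∀ (r : ℕ) (a : C.CH X), IsCodim C r a → HomTriv W a → C.SmashNilpotent a

/-- The subspace of `CH ^ p (X)` spanned by the powers `D ^ p` of the divisor classes `D`. -/
noncomputable def powerSpan (C : ChowTheory.{u, v} 𝒱) (X : 𝒱.Obj) (p : ℕ) :
    Submodule ℚ (C.CH X) :=
  Submodule.span ℚ {x | ∃ D : C.CH X, IsCodim C 1 D ∧ x = D ^ p}

/-- Each homologically trivial linear combination of `p`-th powers of divisor classes on `X` is
smash-nilpotent. -/
def HomNilpotentPowers (W : WeilTheory.{u, v, w} C) (X : 𝒱.Obj) (p : ℕ) : Prop :=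
  ∀ a : C.CH X, a ∈ powerSpan C X p → HomTriv W a → C.SmashNilpotent a

/-- The push-forward `H ^ i (Z) → H ^ (i + 2) (X)` is injective. -/
def PushInjective (W : WeilTheory.{u, v, w} C) {X Z : 𝒱.Obj} (f : Z ⟶ X) (i : ℕ) : Prop :=
  ∀ x : W.H Z, x ∈ W.gr Z i → W.push f x = 0 → x = 0

/-- The class `w` of dimension `j` on `X` is the push-forward of a class on a hyperplane section
`f : Z ⟶ X`, with `Z` in `𝒮`, which satisfies the weak Lefschetz theorem: the push-forward in
cohomology is injective in the degree of the class. -/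
def FromSection (W : WeilTheory.{u, v, w} C) (𝒮 : Set 𝒱.Obj) (X : 𝒱.Obj) (j : ℕ)
    (w : C.CH X) : Prop :=
  ∃ Z ∈ 𝒮, ∃ f : Z ⟶ X, X.dim = Z.dim + 1 ∧
    (∃ w' : C.CH Z, IsCodim C (Z.dim - j) w' ∧ pushOf C f w' = w) ∧
    PushInjective W f (2 * (Z.dim - j))

/-- The set `𝒮` of varieties is closed under hyperplane sections and under products with a
projective line: if `dim X > 2 j + 1`, every class of dimension `j` on `X` in `𝒮` comes from a
section. -/
structure HasHomSections (W : WeilTheory.{u, v, w} C) (𝒮 : Set 𝒱.Obj) : Prop where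
  sections : ∀ X ∈ 𝒮, ∀ j, 2 * j + 1 < X.dim → ∀ w : C.CH X, IsCodim C (X.dim - j) w →
    FromSection W 𝒮 X j w
  line : ∃ P, IsLineFor C 𝒮 P

/-- The splitting principle for blow-ups: every class of codimension `p` on a variety `X` in `ℛ`
becomes a linear combination of `p`-th powers of divisor classes on a variety `X'` in `ℛ` with a
birational morphism to `X`. -/
def SplitsByBlowUps (C : ChowTheory.{u, v} 𝒱) (ℛ : Set 𝒱.Obj) : Prop :=
  ∀ X ∈ ℛ, ∀ (p : ℕ) (w : C.CH X), IsCodim C p w → ∃ X' ∈ ℛ, ∃ π : X' ⟶ X,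
    X'.dim = X.dim ∧ pushOf C π 1 = 1 ∧ pullOf C π w ∈ powerSpan C X' p

end Pool.Agent.R910.Nil
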